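import Pool.Agent.W2helper42.HL.Stm
import Pool.Agent.Y577.LU.L1

/-!
# `j` is injective modulo `SL(2, ℤ)` (piece J_INJ of project HL)
-/

set_option autoImplicit false

open Filter Complex
open scoped Topology PeriodPair
open UpperHalfPlane hiding I
open ModularForm EisensteinSeries

namespace Pool.Agent.W2helper8.HL

section mk

variable {ω Ω : ℂ}

/-- the lattice `Ω (ℤ + ℤ ω)` -/
noncomputable def mkL (ω Ω : ℂ) (hω : 0 < ω.im) (hΩ : Ω ≠ 0) : PeriodPair where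
  ω₁ := Ω
  ω₂ := Ω * ω
  indep := by
    rw [LinearIndependent.pair_iff]
    intro s t h
    have h1 : Ω * ((s : ℂ) + t * ω) = 0 := by
      simp only [Complex.real_smul] at h
      linear_combination h
    have h2 := (mul_eq_zero.1 h1).resolve_left hΩ
    have h3 := congrArg Complex.im h2
    simp at h3
    have ht : t = 0 := h3.resolve_right hω.ne'
    refine ⟨?_, ht⟩
    rw [ht] at h2
    simpa using h2

/-- the elements of the lattice -/
noncomputable def latV (ω Ω : ℂ) (hω : 0 < ω.im) (hΩ : Ω ≠ 0) :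
    (Fin 2 → ℤ) ≃ (mkL ω Ω hω hΩ).lattice :=
  Equiv.ofBijective (fun v => ⟨Ω * (v 0 * ω + v 1), PeriodPair.mem_lattice.2 ⟨v 1, v 0, by
    show (v 1 : ℂ) * Ω + v 0 * (Ω * ω) = _
    ring⟩⟩) ⟨by
    intro v w h
    have h1 : Ω * ((v 0 : ℂ) * ω + v 1) = Ω * (w 0 * ω + w 1) := congrArg Subtype.val h
    have h2 := mul_left_cancel₀ hΩ h1
    have h3 := congrArg Complex.im h2
    simp at h3
    have h4 : v 0 = w 0 := by
      rcases h3 with h3 | h3
      · exact_mod_cast h3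
      · exact absurd h3 hω.ne'
    have h5 : v 1 = w 1 := by
      rw [h4] at h2
      have := add_left_cancel h2
      exact_mod_cast this
    funext i
    fin_cases i
    · exact h4
    · exact h5, by
    intro l
    obtain ⟨m, n, h⟩ := PeriodPair.mem_lattice.1 l.2
    refine ⟨![n, m], Subtype.ext ?_⟩
    rw [← h]
    show Ω * ((n : ℂ) * ω + m) = (m : ℂ) * Ω + n * (Ω * ω)
    ring⟩

lemma G_eq (hω : 0 < ω.im) (hΩ : Ω ≠ 0) {k : ℕ} (hk : 3 ≤ k) :
    (mkL ω Ω hω hΩ).G k = (Ω ^ k)⁻¹ * (2 * riemannZeta k * E hk ⟨ω, hω⟩) := by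
  have h1 := tsum_eisSummand_eq_riemannZeta_mul_eisensteinSeries hk (⟨ω, hω⟩ : ℍ)
  have h2 : E hk (⟨ω, hω⟩ : ℍ) = (1 / 2 : ℂ) * eisensteinSeries (N := 1) 0 k ⟨ω, hω⟩ := rfl
  have h3 : 2 * riemannZeta k * E hk (⟨ω, hω⟩ : ℍ) =
      ∑' v : Fin 2 → ℤ, eisSummand k v (⟨ω, hω⟩ : ℍ) := by
    rw [h1, h2]
    ring
  rw [h3, ← tsum_mul_left]
  unfold PeriodPair.G
  rw [← (latV ω Ω hω hΩ).tsum_eq]
  refine tsum_congr fun v => ?_
  have h4 : (((latV ω Ω hω hΩ) v : (mkL ω Ω hω hΩ).lattice) : ℂ) = Ω * (v 0 * ω + v 1) := rfl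
  rw [h4, mul_pow, mul_inv]
  congr 1
  unfold eisSummand
  rw [zpow_neg, zpow_natCast]

lemma mem_mkL (hω : 0 < ω.im) (hΩ : Ω ≠ 0) {z : ℂ} :
    z ∈ (mkL ω Ω hω hΩ).lattice ↔ ∃ m n : ℤ, z = Ω * (m * ω + n) := by
  rw [PeriodPair.mem_lattice]
  constructor
  · rintro ⟨m, n, h⟩
    refine ⟨n, m, ?_⟩
    rw [← h]
    show (m : ℂ) * Ω + n * (Ω * ω) = Ω * ((n : ℂ) * ω + m)
    ring
  · rintro ⟨m, n, h⟩
    refine ⟨n, m, ?_⟩
    rw [h]
    show (n : ℂ) * Ω + m * (Ω * ω) = Ω * ((m : ℂ) * ω + n)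
    ring

end mk

/-- the scaling factor -/
lemma exists_scale {τ w : ℍ} (h : H294ZP.jj τ = H294ZP.jj w) :
    ∃ l : ℂ, l ≠ 0 ∧ E₄ w = l ^ 4 * E₄ τ ∧ E₆ w = l ^ 6 * E₆ τ := by
  have d1 := discriminant_ne_zero τ
  have d2 := discriminant_ne_zero w
  unfold H294ZP.jj at h
  rw [div_eq_div_iff d1 d2, discriminant_eq_E₄_cube_sub_E₆_sq,
    discriminant_eq_E₄_cube_sub_E₆_sq] at h
  rw [discriminant_eq_E₄_cube_sub_E₆_sq] at d1 d2
  set a := E₄ τ
  set b := E₆ τ
  set c := E₄ w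
  set d := E₆ w
  have h' : a ^ 3 * d ^ 2 = c ^ 3 * b ^ 2 := by linear_combination (-1728) * h
  have e1 : a ^ 3 - b ^ 2 ≠ 0 := fun e => d1 (by rw [e]; simp)
  have e2 : c ^ 3 - d ^ 2 ≠ 0 := fun e => d2 (by rw [e]; simp)
  by_cases ha : a = 0
  · have hb : b ≠ 0 := by
      intro hb
      exact e1 (by rw [ha, hb]; ring)
    have hc : c = 0 := by
      rw [ha] at h'
      have : c ^ 3 * b ^ 2 = 0 := by rw [← h']; ring
      rcases mul_eq_zero.1 this with h1 | h1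
      · exact pow_eq_zero_iff (by norm_num) |>.1 h1
      · exact absurd (pow_eq_zero_iff (by norm_num) |>.1 h1) hb
    have hd : d ≠ 0 := by
      intro hd
      exact e2 (by rw [hc, hd]; ring)
    obtain ⟨l, hl⟩ := IsAlgClosed.exists_pow_nat_eq (d / b) (n := 6) (by norm_num)
    refine ⟨l, ?_, ?_, ?_⟩
    · rintro rfl
      rw [zero_pow (by norm_num)] at hl
      exact div_ne_zero hd hb hl.symm
    · rw [ha, hc]; ring
    · rw [hl]; field_simp
  · have hc : c ≠ 0 := by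
      intro hc
      rw [hc] at h'
      have : a ^ 3 * d ^ 2 = 0 := by rw [h']; ring
      rcases mul_eq_zero.1 this with h1 | h1
      · exact ha (pow_eq_zero_iff (by norm_num) |>.1 h1)
      · have hd := pow_eq_zero_iff (by norm_num) |>.1 h1
        exact e2 (by rw [hc, hd]; ring)
    by_cases hb : b = 0
    · have hd : d = 0 := by
        rw [hb] at h'
        have : a ^ 3 * d ^ 2 = 0 := by rw [h']; ring
        rcases mul_eq_zero.1 this with h1 | h1
        · exact absurd (pow_eq_zero_iff (by norm_num) |>.1 h1) ha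
        · exact pow_eq_zero_iff (by norm_num) |>.1 h1
      obtain ⟨l, hl⟩ := IsAlgClosed.exists_pow_nat_eq (c / a) (n := 4) (by norm_num)
      refine ⟨l, ?_, ?_, ?_⟩
      · rintro rfl
        rw [zero_pow (by norm_num)] at hl
        exact div_ne_zero hc ha hl.symm
      · rw [hl]; field_simp
      · rw [hb, hd]; ring
    · have hd : d ≠ 0 := by
        intro hd
        rw [hd] at h'
        have : c ^ 3 * b ^ 2 = 0 := by rw [← h']; ring
        rcases mul_eq_zero.1 this with h1 | h1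
        · exact hc (pow_eq_zero_iff (by norm_num) |>.1 h1)
        · exact hb (pow_eq_zero_iff (by norm_num) |>.1 h1)
      obtain ⟨l, hl⟩ := IsAlgClosed.exists_pow_nat_eq ((d * a) / (b * c)) (n := 2) (by norm_num)
      have h4 : l ^ 4 = c / a := by
        have : l ^ 4 = (l ^ 2) ^ 2 := by ring
        rw [this, hl]
        field_simp
        linear_combination h'
      refine ⟨l, ?_, ?_, ?_⟩
      · rintro rfl
        rw [zero_pow (by norm_num)] at hl
        exact div_ne_zero (mul_ne_zero hd ha) (mul_ne_zero hb hc) hl.symm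
      · rw [h4]; field_simp
      · have : l ^ 6 = l ^ 4 * l ^ 2 := by ring
        rw [this, h4, hl]
        field_simp

lemma re_im_zero {z : ℍ} {p q : ℤ} (h : (p : ℂ) * z + q = 0) : p = 0 ∧ q = 0 := by
  have h3 := congrArg Complex.im h
  simp at h3
  have hp : p = 0 := by
    rcases h3 with h3 | h3
    · exact_mod_cast h3
    · exact absurd h3 z.im_pos.ne'
  refine ⟨hp, ?_⟩
  rw [hp] at h
  have : (q : ℂ) = 0 := by simpa using h
  exact_mod_cast this

theorem piece : Pool.Agent.W2helper42.HL.J_INJ := by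
  intro τ w h
  obtain ⟨l, hl, h4, h6⟩ := exists_scale h
  have hμ : l⁻¹ ≠ 0 := inv_ne_zero hl
  have hlat : (mkL (τ : ℂ) l⁻¹ τ.im_pos hμ).lattice =
      (mkL (w : ℂ) 1 w.im_pos one_ne_zero).lattice := by
    apply Pool.Agent.Y577.LU.lat_unique
    · unfold PeriodPair.g₂
      rw [G_eq _ _ (k := 4) (by norm_num), G_eq _ _ (k := 4) (by norm_num)]
      have e1 : E (by norm_num : 3 ≤ 4) (⟨(τ : ℂ), τ.im_pos⟩ : ℍ) = E₄ τ := rfl
      have e2 : E (by norm_num : 3 ≤ 4) (⟨(w : ℂ), w.im_pos⟩ : ℍ) = E₄ w := rfl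
      rw [e1, e2, h4, inv_pow, inv_inv]
      ring
    · unfold PeriodPair.g₃
      rw [G_eq _ _ (k := 6) (by norm_num), G_eq _ _ (k := 6) (by norm_num)]
      have e1 : E (by norm_num : 3 ≤ 6) (⟨(τ : ℂ), τ.im_pos⟩ : ℍ) = E₆ τ := rfl
      have e2 : E (by norm_num : 3 ≤ 6) (⟨(w : ℂ), w.im_pos⟩ : ℍ) = E₆ w := rfl
      rw [e1, e2, h6, inv_pow, inv_inv]
      ring
  have m1 : (w : ℂ) ∈ (mkL (τ : ℂ) l⁻¹ τ.im_pos hμ).lattice := by
    rw [hlat, mem_mkL]
    exact ⟨1, 0, by push_cast; ring⟩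
  have m2 : (1 : ℂ) ∈ (mkL (τ : ℂ) l⁻¹ τ.im_pos hμ).lattice := by
    rw [hlat, mem_mkL]
    exact ⟨0, 1, by push_cast; ring⟩
  have m3 : l⁻¹ ∈ (mkL (w : ℂ) 1 w.im_pos one_ne_zero).lattice := by
    rw [← hlat, mem_mkL]
    exact ⟨0, 1, by push_cast; ring⟩
  have m4 : l⁻¹ * (τ : ℂ) ∈ (mkL (w : ℂ) 1 w.im_pos one_ne_zero).lattice := by
    rw [← hlat, mem_mkL]
    exact ⟨1, 0, by push_cast; ring⟩
  rw [mem_mkL] at m1 m2 m3 m4
  obtain ⟨a, b, hab⟩ := m1
  obtain ⟨c, d, hcd⟩ := m2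
  obtain ⟨q, p, hqp⟩ := m3
  obtain ⟨s, r, hsr⟩ := m4
  have hll : l⁻¹ * l = 1 := inv_mul_cancel₀ hl
  have k1 : (c : ℂ) * τ + d = l := by
    linear_combination (-l) * hcd + (-(c * (τ : ℂ)) - d) * hll
  have k2 : (w : ℂ) * l = a * τ + b := by
    linear_combination l * hab + (a * (τ : ℂ) + b) * hll
  -- the inverse relations
  have r1 : ((q * a + p * c : ℤ) : ℂ) * τ + ((q * b + p * d - 1 : ℤ) : ℂ) = 0 := by
    push_cast
    linear_combination (-(q : ℂ)) * k2 + (p : ℂ) * k1 - l * hqp + hll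
  have r2 : ((s * a + r * c - 1 : ℤ) : ℂ) * τ + ((s * b + r * d : ℤ) : ℂ) = 0 := by
    push_cast
    linear_combination (-(s : ℂ)) * k2 + (r : ℂ) * k1 - l * hsr + (τ : ℂ) * hll
  obtain ⟨r1a, r1b⟩ := re_im_zero r1
  obtain ⟨r2a, r2b⟩ := re_im_zero r2
  have hdet : (s * p - r * q) * (a * d - b * c) = 1 := by
    linear_combination (q * b + p * d) * r2a + r1b - (s * b + r * d) * r1a
  have hu : IsUnit (a * d - b * c) := IsUnit.of_mul_eq_one _ (by rw [mul_comm]; exact hdet)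
  refine ⟨a, b, c, d, ?_, by rw [k1, k2]⟩
  rcases Int.isUnit_iff.1 hu with h1 | h1
  · exact h1
  · exfalso
    have hw : (w : ℂ) * ((c : ℂ) * τ + d) = a * τ + b := by rw [k1, k2]
    have hn : (w : ℂ) * Complex.normSq ((c : ℂ) * τ + d) =
        (a * τ + b) * (starRingEnd ℂ) ((c : ℂ) * τ + d) := by
      rw [← Complex.mul_conj, ← mul_assoc, hw]
    have him := congrArg Complex.im hn
    have hpos : 0 < Complex.normSq ((c : ℂ) * τ + d) := by
      rw [k1]
      exact Complex.normSq_pos.2 hl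
    have e3 : (((a : ℂ) * τ + b) * (starRingEnd ℂ) ((c : ℂ) * τ + d)).im =
        ((a * d - b * c : ℤ) : ℝ) * τ.im := by
      simp
      ring
    rw [e3, h1, mul_comm, Complex.im_ofReal_mul] at him
    have h5 : 0 < Complex.normSq ((c : ℂ) * τ + d) * (w : ℂ).im := mul_pos hpos w.im_pos
    rw [him] at h5
    have h6 := τ.im_pos
    push_cast at h5
    linarith

end Pool.Agent.W2helper8.HL
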