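import Pool.Agent.W2helper8.HL.JSurj

/-!
# The primitive modular polynomials (piece J_POLY of project HL)
-/

set_option autoImplicit false

open Polynomial UpperHalfPlane H294ZP
open Function FixedDetMatrices Matrix MatrixGroups H294ZP.TF676
open Pool.Agent.R870.NY

namespace Pool.Agent.W2helper8.HL

/-- a primitive matrix -/
def Prim {m : ℤ} (A : FixedDetMatrix (Fin 2) ℤ m) : Prop :=
  ∀ g : ℤ, (∀ i j, g ∣ A.1 i j) → IsUnit g

lemma prim_smul_aux {m : ℤ} (g : SL(2, ℤ)) (A : FixedDetMatrix (Fin 2) ℤ m) (h : Prim (g • A)) :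
    Prim A := by
  intro t ht
  apply h t
  intro i j
  rw [smul_entries]
  exact dvd_add ((ht 0 j).mul_left _) ((ht 1 j).mul_left _)

lemma prim_smul {m : ℤ} (g : SL(2, ℤ)) (A : FixedDetMatrix (Fin 2) ℤ m) :
    Prim (g • A) ↔ Prim A := by
  refine ⟨prim_smul_aux g A, fun h => prim_smul_aux g⁻¹ _ ?_⟩
  rwa [inv_smul_smul]

lemma prim_rmul {m : ℤ} (g : SL(2, ℤ)) (A : FixedDetMatrix (Fin 2) ℤ m) (h : Prim A) :
    Prim (rmul A g) := by
  intro t ht
  apply h t
  intro i j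
  have h3 : g.1 * (g⁻¹ : SL(2, ℤ)).1 = 1 := congrArg Subtype.val (mul_inv_cancel g)
  have h4 : A.1 = (rmul A g).1 * (g⁻¹ : SL(2, ℤ)).1 := by
    show A.1 = A.1 * g.1 * (g⁻¹ : SL(2, ℤ)).1
    rw [mul_assoc, h3, mul_one]
  rw [h4, Matrix.mul_apply, Fin.sum_univ_two]
  exact dvd_add ((ht i 0).mul_right _) ((ht i 1).mul_right _)

section
variable {N : ℕ} (hN : 0 < N)

lemma prim_red (hN : 0 < N) (A : FixedDetMatrix (Fin 2) ℤ (N : ℤ)) (h : Prim A) :
    Prim (red hN A).1 := by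
  obtain ⟨g, hg⟩ := reduce_orbit A
  have hR : (red hN A).1 = g • A := hg
  rw [hR, prim_smul]
  exact h

end

theorem mpoly {N : ℕ} (hN : 0 < N) {ι : Type} [Fintype ι] [DecidableEq ι] (a d : ι → ℕ)
    (b : ι → ℤ) (h : ι → ℍ → ℍ) (h1 : ∀ k, 0 < a k ∧ 0 < d k ∧ a k * d k = N)
    (h2 : ∀ k τ, (h k τ : ℂ) * d k = a k * τ + b k)
    (hinv : ∀ p q r t : ℤ, p * t - q * r = 1 → ∀ τ w : ℍ, (w : ℂ) * (r * τ + t) = p * τ + q →
      ∏ k, (X - C (jj (h k w))) = ∏ k, (X - C (jj (h k τ)))) :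
    ∃ Φ : ℂ[X][X], Φ.Monic ∧ (∀ i j, IsIntegral ℤ ((Φ.coeff i).coeff j)) ∧
      ∀ τ, Φ.map (evalRingHom (jj τ)) = ∏ k, (X - C (jj (h k τ))) := by
  classical
  have hG : ∀ k, LB N (N ^ 2) (fun τ => jj (h k τ)) := by
    intro k
    obtain ⟨ha, hd, had⟩ := h1 k
    have := tc.2.2.2.2 hTA.2.1 hTA.2.2 (a k) (d k) (b k) ha hd (h k) (h2 k)
    rw [had] at this
    refine LB.mono hN (Nat.pow_le_pow_left ?_ 2) ⟨⟨_, this.1⟩, this.2⟩
    rw [← had]
    exact Nat.le_mul_of_pos_right _ hd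
  have hco := coeff_prod hN (fun k τ => jj (h k τ)) hG Finset.univ
  have hP : ∀ j, ∃ P : ℂ[X], (∀ i, IsIntegral ℤ (P.coeff i)) ∧
      ∀ τ, (∏ k, (X - C (jj (h k τ)))).coeff j = P.eval (jj τ) := by
    intro j
    obtain ⟨⟨A, hL⟩, hH⟩ := hco j
    obtain ⟨P, hP1, hP2, -⟩ := hTB N hN _ A _ (by
      intro p q r t hpt τ w hw
      change (∏ k, (X - C (jj (h k w)))).coeff j = (∏ k, (X - C (jj (h k τ)))).coeff j
      rw [hinv p q r t hpt τ w hw]) hH hL
    exact ⟨P, hP1, hP2⟩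
  choose P hPd hP using hP
  have hmon : ∀ τ, (∏ k, (X - C (jj (h k τ)))).Monic := fun τ =>
    monic_prod_of_monic _ _ fun k _ => monic_X_sub_C _
  have hdeg : ∀ τ, (∏ k, (X - C (jj (h k τ)))).natDegree = (Finset.univ : Finset ι).card := by
    intro τ
    rw [natDegree_prod_of_monic _ _ fun k _ => monic_X_sub_C _]
    simp
  set n := (Finset.univ : Finset ι).card
  have hlt : (∑ j ∈ Finset.range n, C (P j) * X ^ j : ℂ[X][X]).degree < n := by
    refine lt_of_le_of_lt (degree_sum_le _ _) ?_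
    rw [Finset.sup_lt_iff (by exact_mod_cast WithBot.bot_lt_coe n)]
    intro m hm
    refine lt_of_le_of_lt (degree_C_mul_X_pow_le _ _) ?_
    exact_mod_cast Finset.mem_range.1 hm
  refine ⟨X ^ n + ∑ j ∈ Finset.range n, C (P j) * X ^ j, ?_, ?_, ?_⟩
  · exact monic_X_pow_add hlt
  · intro i j
    rw [coeff_add, finsetSum_coeff, coeff_add]
    refine IsIntegral.add ?_ ?_
    · rw [coeff_X_pow]
      split_ifs
      · rw [coeff_one]
        split_ifs
        · exact isIntegral_one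
        · exact isIntegral_zero
      · rw [coeff_zero]
        exact isIntegral_zero
    · rw [finsetSum_coeff]
      refine IsIntegral.sum _ fun l _ => ?_
      rw [coeff_C_mul_X_pow]
      split_ifs
      · exact hPd _ _
      · rw [coeff_zero]
        exact isIntegral_zero
  · intro τ
    rw [(hmon τ).as_sum, hdeg τ]
    simp only [Polynomial.map_add, Polynomial.map_pow, Polynomial.map_X, Polynomial.map_sum,
      Polynomial.map_mul, Polynomial.map_C, coe_evalRingHom, hP]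

theorem jpoly : Pool.Agent.W2helper42.HL.J_POLY := by
  classical
  intro N hN
  have hj : Inv jj := ta1.1
  let ι : Type := {k : reps (N : ℤ) // Prim k.1}
  have : Fintype ι := Fintype.ofFinite _
  have hinv : ∀ p q r t : ℤ, p * t - q * r = 1 → ∀ τ w : ℍ,
      (w : ℂ) * (r * τ + t) = p * τ + q →
      ∏ k : ι, (X - C (jj (hf hN k.1 w))) = ∏ k : ι, (X - C (jj (hf hN k.1 τ))) := by
    intro p q r s hdet τ w hw
    set γ : SL(2, ℤ) := ⟨!![p, q; r, s], by rw [Matrix.det_fin_two_of]; exact hdet⟩ with hγ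
    let σ : ι → ι := fun k => ⟨red hN (rmul k.1.1 γ), prim_red hN _ (prim_rmul γ _ k.2)⟩
    have hinj : Function.Injective σ := by
      intro k k' hkk
      have h1 : reduce (rmul k.1.1 γ) = reduce (rmul k'.1.1 γ) :=
        congrArg (fun z : ι => z.1.1) hkk
      obtain ⟨g, hg⟩ := reduce_orbit (rmul k.1.1 γ)
      obtain ⟨g', hg'⟩ := reduce_orbit (rmul k'.1.1 γ)
      rw [hg, hg', smul_rmul, smul_rmul] at h1
      have h2 := rmul_inj γ h1
      have h3 : k'.1.1 = (g'⁻¹ * g) • k.1.1 := by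
        rw [mul_smul, h2, inv_smul_smul]
      exact Subtype.ext (Subtype.ext (reps_unique (by exact_mod_cast hN) k.1.2 k'.1.2 _ h3))
    have hσ : ∀ k : ι, jj (hf hN k.1 w) = jj (hf hN (σ k).1 τ) := by
      intro k
      show jj (hf hN k.1 w) = jj (hf hN (red hN (rmul k.1.1 γ)) τ)
      apply key hN hj
      have h1 := hf_mul hN k.1 w
      have h10 : k.1.1.1 1 0 = 0 := (reps_pos hN k.1).2.2.2.2.2
      have e10 : (rmul k.1.1 γ).1 1 0 = k.1.1.1 1 1 * r := by
        show (k.1.1.1 * γ.1) 1 0 = _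
        simp [Matrix.mul_apply, Fin.sum_univ_two, hγ, h10]
      have e11 : (rmul k.1.1 γ).1 1 1 = k.1.1.1 1 1 * s := by
        show (k.1.1.1 * γ.1) 1 1 = _
        simp [Matrix.mul_apply, Fin.sum_univ_two, hγ, h10]
      have e00 : (rmul k.1.1 γ).1 0 0 = k.1.1.1 0 0 * p + k.1.1.1 0 1 * r := by
        show (k.1.1.1 * γ.1) 0 0 = _
        simp [Matrix.mul_apply, Fin.sum_univ_two, hγ]
      have e01 : (rmul k.1.1 γ).1 0 1 = k.1.1.1 0 0 * q + k.1.1.1 0 1 * s := by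
        show (k.1.1.1 * γ.1) 0 1 = _
        simp [Matrix.mul_apply, Fin.sum_univ_two, hγ]
      rw [e10, e11, e00, e01]
      push_cast
      linear_combination ((r : ℂ) * τ + s) * h1 + (k.1.1.1 0 0 : ℂ) * hw
    rw [← Equiv.prod_comp (Equiv.ofBijective σ (Finite.injective_iff_bijective.1 hinj))
      (fun k => (X - C (jj (hf hN k.1 τ))))]
    exact Finset.prod_congr rfl fun k _ => by rw [hσ k]; rfl
  obtain ⟨Φ, hΦ1, hΦ2, hΦ3⟩ := mpoly hN (ι := ι) (fun k => (k.1.1.1 0 0).toNat)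
    (fun k => (k.1.1.1 1 1).toNat) (fun k => k.1.1.1 0 1) (fun k => hf hN k.1)
    (fun k => ⟨(reps_pos hN k.1).1, (reps_pos hN k.1).2.1, (reps_pos hN k.1).2.2.1⟩)
    (fun k τ => hk_mul _ _ _ (reps_pos hN k.1).1 (reps_pos hN k.1).2.1 τ) hinv
  refine ⟨Φ, hΦ1, fun i j => ?_, fun x y => ⟨fun h => ?_, ?_⟩⟩
  · exact (hΦ2 i j).tower_top.isAlgebraic
  · obtain ⟨τ, rfl⟩ := jsurj x
    rw [hΦ3, eval_prod, Finset.prod_eq_zero_iff] at h
    obtain ⟨k, -, hk⟩ := h
    rw [eval_sub, eval_X, eval_C, sub_eq_zero] at hk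
    have h10 : k.1.1.1 1 0 = 0 := (reps_pos hN k.1).2.2.2.2.2
    refine ⟨k.1.1.1 0 0, k.1.1.1 0 1, k.1.1.1 1 0, k.1.1.1 1 1, τ, hf hN k.1 τ, det_eq k.1.1,
      ?_, ?_, rfl, hk.symm⟩
    · intro g h1 h2 h3 h4
      apply k.2 g
      intro i j
      fin_cases i <;> fin_cases j
      · exact h1
      · exact h2
      · exact h3
      · exact h4
    · rw [h10]
      have := hf_mul hN k.1 τ
      push_cast
      linear_combination this
  · rintro ⟨a, b, c, d, τ, w, hdet, hprim, hw, rfl, rfl⟩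
    set A : FixedDetMatrix (Fin 2) ℤ (N : ℤ) :=
      ⟨!![a, b; c, d], by rw [Matrix.det_fin_two_of]; exact hdet⟩ with hA
    have hAp : Prim A := by
      intro g hg
      exact hprim g (by simpa [hA] using hg 0 0) (by simpa [hA] using hg 0 1)
        (by simpa [hA] using hg 1 0) (by simpa [hA] using hg 1 1)
    have hk := key hN hj A τ w (by simpa [hA] using hw)
    rw [hΦ3, eval_prod]
    refine Finset.prod_eq_zero (Finset.mem_univ (⟨red hN A, prim_red hN A hAp⟩ : ι)) ?_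
    rw [eval_sub, eval_X, eval_C, hk, sub_self]

end Pool.Agent.W2helper8.HL
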