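import Pool.Agent.W2helper42.HL.Stm
import Pool.Agent.R870.NY.Mod

/-!
# `j` is surjective (piece J_SURJ of project HL)
-/

set_option autoImplicit false

open UpperHalfPlane ModularForm SlashInvariantForm SlashInvariantFormClass ModularFormClass
  CuspFormClass MatrixGroups OnePoint Filter EisensteinSeries Asymptotics
open scoped Topology Manifold

namespace Pool.Agent.W2helper8.HL

lemma tendsto_E4 : Tendsto (fun τ : ℍ => E₄ τ) atImInfty (𝓝 1) := by
  obtain ⟨c, hc, h⟩ := exp_decay_sub_atImInfty' (E₄ : ModularForm 𝒮ℒ 4)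
  have hv : valueAtInfty (E₄ : ℍ → ℂ) = 1 := by
    rw [← E_qExpansion_coeff_zero (k := 4) (by norm_num) (by decide)]
    symm
    exact UpperHalfPlane.qExpansion_coeff_zero one_pos
      (ModularFormClass.analyticAt_cuspFunction_zero _ one_pos one_mem_strictPeriods_SL)
      (SlashInvariantFormClass.periodic_comp_ofComplex _ one_mem_strictPeriods_SL)
  rw [hv] at h
  have h1 : Tendsto (fun τ : ℍ => Real.exp (-c * τ.im)) atImInfty (𝓝 0) := by
    have h2 : Tendsto (fun τ : ℍ => τ.im) atImInfty atTop := tendsto_comap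
    have h3 : Tendsto (fun τ : ℍ => -c * τ.im) atImInfty atBot :=
      h2.const_mul_atTop_of_neg (by linarith)
    exact Real.tendsto_exp_atBot.comp h3
  have h4 := h.trans_tendsto h1
  have h5 := h4.add_const 1
  simpa using h5

theorem jsurj : Pool.Agent.W2helper42.HL.J_SURJ := by
  intro z
  by_contra hz
  push Not at hz
  have hg : ∀ τ : ℍ, E₄ τ ^ 3 - z * ModularForm.discriminant τ ≠ 0 := by
    intro τ h
    apply hz τ
    unfold H294ZP.jj
    rw [div_eq_iff (discriminant_ne_zero τ)]
    linear_combination h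
  set F : ℍ → ℂ := fun τ => ModularForm.discriminant τ / (E₄ τ ^ 3 - z * ModularForm.discriminant τ)
    with hF
  have hFj : ∀ τ, F τ = (H294ZP.jj τ - z)⁻¹ := by
    intro τ
    have := discriminant_ne_zero τ
    have := hg τ
    have h3 : H294ZP.jj τ - z ≠ 0 := sub_ne_zero.2 (hz τ)
    simp only [hF]
    rw [div_eq_iff (hg τ), inv_mul_eq_div, eq_div_iff h3]
    unfold H294ZP.jj
    field_simp
  have hslash : ∀ γ : SL(2, ℤ), F ∣[(0 : ℤ)] γ = F := by
    intro γ
    ext τ
    rw [SL_slash_apply]
    simp only [neg_zero, zpow_zero, mul_one]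
    rw [hFj, hFj]
    congr 2
    exact Pool.Agent.R870.NY.hTA.1 (γ 0 0) (γ 0 1) (γ 1 0) (γ 1 1)
      (by have := γ.det_coe; rw [Matrix.det_fin_two] at this; linear_combination this) τ _ (by
        have h1 : ((γ • τ : ℍ) : ℂ) = ((γ 0 0 : ℂ) * τ + γ 0 1) / ((γ 1 0 : ℂ) * τ + γ 1 1) := by
          rw [UpperHalfPlane.specialLinearGroup_apply]
          simp
        have h2 : (γ 1 0 : ℂ) * τ + γ 1 1 ≠ 0 := by
          have := denom_ne_zero γ τ
          simpa [denom] using this
        rw [h1, div_mul_cancel₀ _ h2])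
  have hlim : Tendsto F atImInfty (𝓝 0) := by
    have h1 : Tendsto (fun τ : ℍ => ModularForm.discriminant τ) atImInfty (𝓝 0) :=
      discriminant_isZeroAtImInfty
    have h2 := (tendsto_E4.pow 3).sub (h1.const_mul z)
    have h3 := h1.div h2 (by norm_num)
    have h4 : (0 : ℂ) / (1 ^ 3 - z * 0) = 0 := by simp
    rw [h4] at h3
    exact h3
  have hholo : MDiff F := by
    have h1 : MDiff (fun τ : ℍ => ModularForm.discriminant τ) := CuspForm.discriminant.holo'
    have h2 : MDiff (fun τ : ℍ => E₄ τ) := (E₄).holo'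
    refine h1.div ?_ hg
    exact (h2.pow 3).sub (mdifferentiable_const.mul h1)
  let f : ModularForm 𝒮ℒ 0 :=
    { toFun := F
      slash_action_eq' := fun _ ⟨γ, hγ⟩ => hγ ▸ hslash γ
      holo' := hholo
      bdd_at_cusps' := by
        intro c hc
        rw [Subgroup.IsArithmetic.isCusp_iff_isCusp_SL2Z] at hc
        rw [isBoundedAt_iff_forall_SL2Z hc]
        intro γ _
        rw [hslash γ, IsBoundedAtImInfty, BoundedAtFilter]
        exact hlim.isBigO_one ℝ }
  obtain ⟨c, hc⟩ := levelOne_weight_zero_const f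
  have hc' : F = Function.const _ c := hc
  have hc0 : c = 0 := by
    rw [hc'] at hlim
    exact (tendsto_nhds_unique hlim tendsto_const_nhds).symm
  have h0 : F UpperHalfPlane.I = 0 := by rw [hc', hc0]; rfl
  rw [hFj] at h0
  exact inv_ne_zero (sub_ne_zero.2 (hz _)) h0

end Pool.Agent.W2helper8.HL
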